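import Pool.Agent.helper42.CQ.SpecC

/-!
# Row cq:CO3
-/

set_option autoImplicit false

namespace Pool.Agent.helper42.CQ

open Finset Pool.Agent.helper24.CG

theorem CO3_gain_pos {N : ℕ} (b m : ℕ) (S : ES N) (H : List (ES N)) : 0 < gain b m S H := by
  unfold gain
  apply List.prod_pos
  intro a ha
  rw [List.mem_map] at ha
  obtain ⟨E, -, rfl⟩ := ha
  have h1 : (0 : ℝ) ≤ (b : ℝ) * ((E ∩ S).card : ℝ) / (m : ℝ) := by positivity
  linarith

theorem CO3 (hIND : IND_stmt) (hSU2 : SU2_stmt) (hBR2 : BR2_stmt) (hIN1 : IN1_stmt) :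
    CO3_stmt := by
  intro N m b q p hN hm hq hp hwin
  have hN' : (0 : ℝ) < N := by exact_mod_cast hN
  have hN1 : (1 : ℝ) ≤ N := by exact_mod_cast hN
  have hq0 : (0 : ℝ) ≤ q := Nat.cast_nonneg q
  have hb0 : (0 : ℝ) ≤ b := Nat.cast_nonneg b
  have hq1 : (0 : ℝ) < (q : ℝ) + 1 := by linarith
  have hc : (0 : ℝ) < 2 * b + 3 := by linarith
  have hc1 : (1 : ℝ) ≤ 2 * b + 3 := by linarith
  obtain ⟨hP0, hP2, hPK⟩ := hIN1 N q p hN hq
  let R : List (ES N) → Finset (Fin N) → Set ℝ := fun H K =>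
    {r | 0 ≤ r ∧ (H = [] → r = (((q : ℝ) + 1) * (N : ℝ) ^ q)⁻¹) ∧
      (H ≠ [] → ∃ X : Finset (Fin N) → ℕ → Finset (Fin N),
        ∀ w, Chain N m b q p (2 * (b : ℝ) + 3) H X K w →
          Real.exp w / (((q : ℝ) + 1) * (N : ℝ) ^ 2) ≤ r)}
  have h := hIND N m b q (Psi1 N q p) R hN hm hP0 hP2 ?_ ?_ ?_ hwin
  · obtain ⟨H, K, hH, hK, hcov, hspl⟩ := h
    refine ⟨H, K, hH, hK, hcov, ?_, ?_⟩
    · obtain ⟨r, ⟨hr0, hr1, -⟩, hr2⟩ := hspl H [] (List.append_nil H).symm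
      rw [hr1 rfl] at hr2
      have hG := CO3_gain_pos b m (ed K) H
      have hD : (0 : ℝ) < ((q : ℝ) + 1) * (N : ℝ) ^ q := by positivity
      have h1 : gain b m (ed K) H ≤ (((q : ℝ) + 1) * (N : ℝ) ^ q) * (2 * b + 3) := by
        rw [inv_mul_le_iff₀ hD] at hr2
        exact hr2
      have h2 := Real.log_le_log hG h1
      rw [Real.log_mul hD.ne' hc.ne', Real.log_mul hq1.ne' (by positivity), Real.log_pow] at h2
      linarith
    · intro H₂ H₁ hHH hne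
      obtain ⟨r, ⟨hr0, -, hr1⟩, hr2⟩ := hspl H₂ H₁ hHH
      obtain ⟨X, hX⟩ := hr1 hne
      refine ⟨X, fun w hw => ?_⟩
      have hG := CO3_gain_pos b m (ed K) H₂
      have hD : (0 : ℝ) < ((q : ℝ) + 1) * (N : ℝ) ^ 2 := by positivity
      have h1 := hX w hw
      have h2 : Real.exp w * gain b m (ed K) H₂ ≤ (2 * b + 3) * (((q : ℝ) + 1) * (N : ℝ) ^ 2) := by
        rw [div_le_iff₀ hD] at h1
        calc Real.exp w * gain b m (ed K) H₂
            ≤ (r * (((q : ℝ) + 1) * (N : ℝ) ^ 2)) * gain b m (ed K) H₂ :=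
              mul_le_mul_of_nonneg_right h1 hG.le
          _ = (r * gain b m (ed K) H₂) * (((q : ℝ) + 1) * (N : ℝ) ^ 2) := by ring
          _ ≤ (2 * b + 3) * (((q : ℝ) + 1) * (N : ℝ) ^ 2) :=
              mul_le_mul_of_nonneg_right hr2 hD.le
      have h3 := Real.log_le_log (mul_pos (Real.exp_pos w) hG) h2
      rw [Real.log_mul (Real.exp_pos w).ne' hG.ne', Real.log_exp, Real.log_mul hc.ne' hD.ne',
        Real.log_mul hq1.ne' (by positivity), Real.log_pow] at h3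
      push_cast at h3
      linarith
  · rintro H K r ⟨hr, -⟩
    exact hr
  · intro K hK
    refine ⟨(((q : ℝ) + 1) * (N : ℝ) ^ q)⁻¹, ⟨by positivity, fun _ => rfl, fun h => absurd rfl h⟩,
      hPK K hK⟩
  · intro H Bk Ψ hH hne hΨ0 hΨ hdis
    obtain ⟨X, hX1, hX2⟩ := hSU2 N m b q p (2 * b + 3) H Bk Ψ hN hm hq hp hc1 hH hΨ0 hΨ hdis
    obtain ⟨β, hβ0, hβ1, hβ2⟩ := hBR2 N m b q p (2 * b + 3) H Bk X hN hm hq hp hc1 hH hX1 hX2
    refine ⟨β, hβ0, hβ1, fun K hK hdK => ⟨β (ed K), ⟨hβ0 _, fun h => absurd h hne, fun _ =>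
      ⟨X, fun w hw => hβ2 K hK hdK w hw⟩⟩, le_rfl⟩⟩

end Pool.Agent.helper42.CQ
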