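import Pool.Agent.helper42.CQ.SpecC

/-!
# Row cq:PAY
-/

set_option autoImplicit false

namespace Pool.Agent.helper42.CQ

open Finset Pool.Agent.helper24.CG

theorem PAY_kF_nonneg (N m b q p : ℕ) : 0 ≤ kF N m b q p := by
  unfold kF
  apply Real.log_nonneg
  have h1 : (0 : ℝ) ≤ 6 * (m : ℝ) * (q : ℝ) ^ 2 := by positivity
  have h2 : (0 : ℝ) ≤ 3 * ((q : ℝ) + 1) * (nn N m b q p : ℝ) := by positivity
  linarith

theorem PAY_kP_nonneg (N q p : ℕ) (c : ℝ) (hN : 1 ≤ N) (hc : 1 ≤ c) : 0 ≤ kP N q p c := by
  unfold kP
  have hN1 : (1 : ℝ) ≤ N := by exact_mod_cast hN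
  have h1 : 0 ≤ Real.log N := Real.log_nonneg hN1
  have h2 : (1 : ℝ) ≤ 6 * c * ((q : ℝ) + 1) ^ 3 := by
    have hq : (1 : ℝ) ≤ ((q : ℝ) + 1) ^ 3 := one_le_pow₀ (by
      have : (0 : ℝ) ≤ q := Nat.cast_nonneg q
      linarith)
    nlinarith
  have h3 := Real.log_nonneg h2
  positivity

theorem PAY (hWTB : WTB_stmt) : PAY_stmt := by
  intro N m b q p c H X K B P w hN hm hb hq hp hc hH hKq hch hBK hPK hBP
  have hm' : (0 : ℝ) < m := by exact_mod_cast hm
  have hb' : (0 : ℝ) < b := by exact_mod_cast hb
  set β : ℝ := Real.log (1 + (b : ℝ) / (m : ℝ)) with hβdef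
  have hβ : 0 < β := by
    apply Real.log_pos
    have : 0 < (b : ℝ) / (m : ℝ) := by positivity
    linarith
  set l : ℝ := Real.log N / β with hldef
  have hβl : β * l = Real.log N := by
    rw [hldef]
    field_simp
  have hkF := PAY_kF_nonneg N m b q p
  have hkP := PAY_kP_nonneg N q p c hN hc
  obtain ⟨hW, -⟩ := hWTB N m b K H hm hb hH
  obtain ⟨n, hn⟩ : ∃ n, P.card = n := ⟨_, rfl⟩
  induction n generalizing B P w with
  | zero =>
    have hP : P = ∅ := Finset.card_eq_zero.mp hn
    subst hP
    refine ⟨B, w, Finset.Subset.refl _, Finset.subset_union_left, ?_, ?_⟩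
    · rw [Finset.union_empty]
      exact hch
    · rw [Finset.union_empty]
      simp only [sub_self, mul_zero, Finset.card_empty, Nat.cast_zero, zero_mul, sub_zero]
      linarith
  | succ n ih =>
    have hBPK : B ∪ P ⊆ K := Finset.union_subset hBK hPK
    have hBPq : (B ∪ P).card ≤ q := (Finset.card_le_card hBPK).trans hKq
    by_cases hX : Disjoint (X B (B ∪ P).card) P
    · have hne : P.Nonempty := Finset.card_pos.mp (by omega)
      refine ⟨B, _, Finset.Subset.refl _, Finset.subset_union_left,
        Chain.paid B P w hch hne hBP hBPq hX, ?_⟩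
      have hed : ed B ⊆ ed (B ∪ P) := Finset.powersetCard_mono Finset.subset_union_left
      have hsum : ∑ e ∈ rest (B ∪ P) B, wt b m K H e + ∑ e ∈ ed B, wt b m K H e =
          ∑ e ∈ ed (B ∪ P), wt b m K H e := Finset.sum_sdiff hed
      have hrest : rest (B ∪ P) B ⊆ ed K :=
        Finset.sdiff_subset.trans (Finset.powersetCard_mono hBPK)
      have hw := hW _ hrest
      have hcard : ((B ∪ P).card : ℝ) = (B.card : ℝ) + (P.card : ℝ) := by
        rw [Finset.card_union_of_disjoint hBP]
        push_cast
        ring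
      have hgf : gf b m K H l (B ∪ P) - gf b m K H l B =
          (P.card : ℝ) * l - ∑ e ∈ rest (B ∪ P) B, wt b m K H e := by
        unfold gf
        rw [hcard, ← hsum]
        ring
      have h1 : β * (gf b m K H l (B ∪ P) - gf b m K H l B) =
          (P.card : ℝ) * Real.log N - β * ∑ e ∈ rest (B ∪ P) B, wt b m K H e := by
        rw [hgf, ← hβl]
        ring
      have h2 : 0 ≤ (P.card : ℝ) * kF N m b q p := by positivity
      rw [h1]
      linarith
    · rw [Finset.not_disjoint_iff] at hX
      obtain ⟨v, hvX, hvP⟩ := hX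
      have hvB : v ∉ B := fun h => (Finset.disjoint_left.mp hBP h) hvP
      have hvK : v ∈ K := hPK hvP
      have hins : insert v B ⊆ K := Finset.insert_subset hvK hBK
      have hBq : B.card + 1 ≤ q := by
        have h1 := (Finset.card_le_card hins).trans hKq
        rw [Finset.card_insert_of_notMem hvB] at h1
        exact h1
      have hch' := Chain.heavy B v _ w hch hBPq hvX hvB hBq
      have hunion : insert v B ∪ P.erase v = B ∪ P := by
        ext x
        simp only [Finset.mem_union, Finset.mem_insert, Finset.mem_erase]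
        constructor
        · rintro ((rfl | h) | ⟨-, h⟩)
          · exact Or.inr hvP
          · exact Or.inl h
          · exact Or.inr h
        · rintro (h | h)
          · exact Or.inl (Or.inr h)
          · by_cases hx : x = v
            · exact Or.inl (Or.inl hx)
            · exact Or.inr ⟨hx, h⟩
      have hdis : Disjoint (insert v B) (P.erase v) := by
        rw [Finset.disjoint_left]
        intro x hx hx'
        rw [Finset.mem_insert] at hx
        rw [Finset.mem_erase] at hx'
        rcases hx with rfl | hx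
        · exact hx'.1 rfl
        · exact (Finset.disjoint_left.mp hBP hx) hx'.2
      have hcard : (P.erase v).card = n := by
        rw [Finset.card_erase_of_mem hvP, hn]
        rfl
      obtain ⟨B'', w', h1, h2, h3, h4⟩ := ih (insert v B) (P.erase v) (w - kF N m b q p) hch' hins
        ((Finset.erase_subset v P).trans hPK) hdis hcard
      rw [hunion] at h2 h3 h4
      refine ⟨B'', w', (Finset.subset_insert v B).trans h1, h2, h3, ?_⟩
      rw [hn]
      rw [hcard] at h4
      push_cast
      linarith

end Pool.Agent.helper42.CQ
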