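import Pool.Agent.helper42.CQ.SpecC

/-!
# Row cq:WTB
-/

set_option autoImplicit false

namespace Pool.Agent.helper42.CQ

open Finset Pool.Agent.helper24.CG

theorem WTB_conc (b m i j : ℕ) (hij : i ≤ j) (hj : 1 ≤ j) :
    ((i : ℝ) / (j : ℝ)) * Real.log (1 + (b : ℝ) * (j : ℝ) / (m : ℝ)) ≤
      Real.log (1 + (b : ℝ) * (i : ℝ) / (m : ℝ)) := by
  have hj' : (0 : ℝ) < j := by exact_mod_cast hj
  have hi' : (i : ℝ) ≤ j := by exact_mod_cast hij
  have h0 : (0 : ℝ) ≤ (b : ℝ) * (j : ℝ) / (m : ℝ) := by positivity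
  have hp0 : (0 : ℝ) ≤ (i : ℝ) / (j : ℝ) := by positivity
  have hp1 : (i : ℝ) / (j : ℝ) ≤ 1 := by
    rw [div_le_one hj']
    exact hi'
  have h1 := rpow_one_add_le_one_add_mul_self
    (s := (b : ℝ) * (j : ℝ) / (m : ℝ)) (by linarith) hp0 hp1
  have hpos : (0 : ℝ) < 1 + (b : ℝ) * (j : ℝ) / (m : ℝ) := by linarith
  have h2 := Real.log_le_log (Real.rpow_pos_of_pos hpos _) h1
  rw [Real.log_rpow hpos] at h2
  have h3 : (i : ℝ) / (j : ℝ) * ((b : ℝ) * (j : ℝ) / (m : ℝ)) = (b : ℝ) * (i : ℝ) / (m : ℝ) := by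
    field_simp
  rw [h3] at h2
  exact h2

theorem WTB_term {N : ℕ} (b m : ℕ) (hm : 1 ≤ m) (hb : 1 ≤ b) (K : Finset (Fin N)) (E S : ES N)
    (hS : S ⊆ ed K) :
    Real.log (1 + (b : ℝ) / (m : ℝ)) * ∑ e ∈ S, (if e ∈ E then
      Real.log (1 + (b : ℝ) * ((E ∩ ed K).card : ℝ) / (m : ℝ)) /
        (((E ∩ ed K).card : ℝ) * Real.log (1 + (b : ℝ) / (m : ℝ))) else 0) =
    (((E ∩ S).card : ℝ) / ((E ∩ ed K).card : ℝ)) *
      Real.log (1 + (b : ℝ) * ((E ∩ ed K).card : ℝ) / (m : ℝ)) := by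
  have hm' : (0 : ℝ) < m := by exact_mod_cast hm
  have hb' : (0 : ℝ) < b := by exact_mod_cast hb
  have hβ : 0 < Real.log (1 + (b : ℝ) / (m : ℝ)) := by
    apply Real.log_pos
    have : 0 < (b : ℝ) / (m : ℝ) := by positivity
    linarith
  have h1 : ∑ e ∈ S, (if e ∈ E then
      Real.log (1 + (b : ℝ) * ((E ∩ ed K).card : ℝ) / (m : ℝ)) /
        (((E ∩ ed K).card : ℝ) * Real.log (1 + (b : ℝ) / (m : ℝ))) else 0) =
      ((E ∩ S).card : ℝ) * (Real.log (1 + (b : ℝ) * ((E ∩ ed K).card : ℝ) / (m : ℝ)) /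
        (((E ∩ ed K).card : ℝ) * Real.log (1 + (b : ℝ) / (m : ℝ)))) := by
    rw [← Finset.sum_filter, Finset.sum_const, nsmul_eq_mul]
    have h2 : S.filter (fun e => e ∈ E) = E ∩ S := by
      ext e
      rw [Finset.mem_filter, Finset.mem_inter, and_comm]
    rw [h2]
  rw [h1]
  rcases Nat.eq_zero_or_pos (E ∩ ed K).card with h0 | h0
  · have h3 : (E ∩ S).card = 0 := by
      have := Finset.card_le_card (Finset.inter_subset_inter (Finset.Subset.refl E) hS)
      omega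
    rw [h3, h0]
    simp
  · have h4 : (0 : ℝ) < ((E ∩ ed K).card : ℝ) := by exact_mod_cast h0
    generalize Real.log (1 + (b : ℝ) / (m : ℝ)) = β at hβ
    generalize Real.log (1 + (b : ℝ) * ((E ∩ ed K).card : ℝ) / (m : ℝ)) = A
    have hβ' := hβ.ne'
    field_simp

theorem WTB_log_cons {N : ℕ} (b m : ℕ) (S E : ES N) (H : List (ES N)) :
    Real.log (gain b m S (E :: H)) =
      Real.log (1 + (b : ℝ) * ((E ∩ S).card : ℝ) / (m : ℝ)) + Real.log (gain b m S H) := by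
  have h1 : gain b m S (E :: H) = (1 + (b : ℝ) * ((E ∩ S).card : ℝ) / (m : ℝ)) * gain b m S H := by
    unfold gain
    rw [List.map_cons, List.prod_cons]
  have h2 : 0 < gain b m S H := by
    unfold gain
    apply List.prod_pos
    intro a ha
    rw [List.mem_map] at ha
    obtain ⟨E, -, rfl⟩ := ha
    have h1 : (0 : ℝ) ≤ (b : ℝ) * ((E ∩ S).card : ℝ) / (m : ℝ) := by positivity
    linarith
  have h3 : (0 : ℝ) < 1 + (b : ℝ) * ((E ∩ S).card : ℝ) / (m : ℝ) := by
    have : (0 : ℝ) ≤ (b : ℝ) * ((E ∩ S).card : ℝ) / (m : ℝ) := by positivity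
    linarith
  rw [h1, Real.log_mul h3.ne' h2.ne']

theorem WTB_wt_cons {N : ℕ} (b m : ℕ) (K : Finset (Fin N)) (E : ES N) (H : List (ES N))
    (S : ES N) :
    ∑ e ∈ S, wt b m K (E :: H) e = ∑ e ∈ S, (if e ∈ E then
      Real.log (1 + (b : ℝ) * ((E ∩ ed K).card : ℝ) / (m : ℝ)) /
        (((E ∩ ed K).card : ℝ) * Real.log (1 + (b : ℝ) / (m : ℝ))) else 0) +
      ∑ e ∈ S, wt b m K H e := by
  rw [← Finset.sum_add_distrib]
  apply Finset.sum_congr rfl
  intro e _
  unfold wt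
  rw [List.map_cons, List.sum_cons]

theorem WTB (hWTA : WTA_stmt) : WTB_stmt := by
  intro N m b K H hm hb hH
  clear hH
  refine ⟨fun S hS => ?_, ?_⟩
  · induction H with
    | nil => simp [wt, gain]
    | cons E H ih =>
      rw [WTB_wt_cons, mul_add, WTB_log_cons, WTB_term b m hm hb K E S hS]
      refine add_le_add ?_ ih
      have hij : (E ∩ S).card ≤ (E ∩ ed K).card :=
        Finset.card_le_card (Finset.inter_subset_inter (Finset.Subset.refl E) hS)
      rcases Nat.eq_zero_or_pos (E ∩ ed K).card with h0 | h0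
      · have h3 : (E ∩ S).card = 0 := by omega
        rw [h3, h0]
        simp
      · exact WTB_conc b m _ _ hij h0
  · induction H with
    | nil => simp [wt, gain]
    | cons E H ih =>
      rw [WTB_wt_cons, mul_add, WTB_log_cons, WTB_term b m hm hb K E _ (Finset.Subset.refl _), ih]
      congr 1
      rcases Nat.eq_zero_or_pos (E ∩ ed K).card with h0 | h0
      · rw [h0]
        simp
      · have h4 : (0 : ℝ) < ((E ∩ ed K).card : ℝ) := by exact_mod_cast h0
        rw [div_self h4.ne', one_mul]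

end Pool.Agent.helper42.CQ
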